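import Pool.Agent.Helper65.CL.Defs

/-!
# CB for symbols of prime degrees, piece F: start and end, for finite families of symbols
-/

set_option autoImplicit false

namespace Pool.Agent.Helper56.CL

open NumberField IsDedekindDomain Pool.Agent.Helper4.CB Pool.Agent.Helper65.CL
open Pool.Agent.Helper69.CB (TriDeg vl)

/-- **START.** -/
theorem start (K : Type) [Field K] [NumberField K] {Λ : Finset ℕ} (hΛ : ∀ l ∈ Λ, 2 ≤ l)
    (S : Finset K) (B : ℕ) :
    ∃ J0 : ℕ, ∀ J, J0 ≤ J → ∀ p : Pl K, Bad Λ J p →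
      B < nm p ∧ ∀ x ∈ S, x ≠ 0 → p.valuation K x = 1 := by
  classical
  -- the places at which some element of `S` is not a unit
  have hfin : ({p : Pl K | ∃ x ∈ S, x ≠ 0 ∧ p.valuation K x ≠ 1}).Finite := by
    have h1 : {p : Pl K | ∃ x ∈ S, x ≠ 0 ∧ p.valuation K x ≠ 1} ⊆
        ⋃ x ∈ S, (IsDedekindDomain.HeightOneSpectrum.Support (𝓞 K) x ∪
          IsDedekindDomain.HeightOneSpectrum.Support (𝓞 K) x⁻¹) := by
      rintro p ⟨x, hx, hx0, hxp⟩
      simp only [Set.mem_iUnion]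
      refine ⟨x, hx, ?_⟩
      rcases lt_or_gt_of_ne hxp with h | h
      · right
        show (1 : _) < p.valuation K x⁻¹
        rw [map_inv₀]
        exact (one_lt_inv₀ ((Valuation.pos_iff _).2 hx0)).2 h
      · left
        exact h
    refine Set.Finite.subset (Set.Finite.biUnion S.finite_toSet fun x _ => ?_) h1
    exact (IsDedekindDomain.HeightOneSpectrum.Support.finite (𝓞 K) x).union
      (IsDedekindDomain.HeightOneSpectrum.Support.finite (𝓞 K) x⁻¹)
  set N : ℕ := ∑ p ∈ hfin.toFinset, nm p with hN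
  refine ⟨B + N, fun J hJ p hp => ?_⟩
  have h2 : 2 ≤ nm p := two_le_nm p
  have hlt : J < nm p := by
    obtain ⟨l, hl, hp⟩ := hp
    have h3 : l ^ J ∣ nm p - 1 := (Nat.modEq_iff_dvd' (by omega)).1 hp.symm
    have h4 : l ^ J ≤ nm p - 1 := Nat.le_of_dvd (by omega) h3
    have h5 : J < l ^ J := Nat.lt_pow_self (hΛ l hl)
    omega
  refine ⟨by omega, fun x hx hx0 => ?_⟩
  by_contra hne
  have hmem : p ∈ hfin.toFinset := by
    rw [Set.Finite.mem_toFinset]
    exact ⟨x, hx, hx0, hne⟩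
  have h6 : nm p ≤ N := Finset.single_le_sum (f := fun p : Pl K => nm p)
    (fun _ _ => Nat.zero_le _) hmem
  omega

/-- the value of a polynomial with integral coefficients at an integral point is integral -/
theorem eval_le_one {K : Type} [Field K] [NumberField K] (p : Pl K) {n : ℕ}
    {f : MvPolynomial (Fin n) K} (hf : ∀ m, p.valuation K (f.coeff m) ≤ 1) {t : Fin n → K}
    (ht : ∀ j, p.valuation K (t j) ≤ 1) : p.valuation K (MvPolynomial.eval t f) ≤ 1 := by
  rw [MvPolynomial.eval_eq']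
  refine Valuation.map_sum_le _ (fun m _ => ?_)
  rw [map_mul, map_prod]
  refine mul_le_one' (hf m) (Finset.prod_le_one' (fun j _ => ?_))
  rw [map_pow]
  exact pow_le_one' (ht j) _

/-- **F.** start and end, for a finite family of symbols `(a i, b i)` -/
theorem tri_loc (K : Type) [Field K] [NumberField K] {n dm : ℕ} {Λ : Finset ℕ}
    (hΛ : ∀ l ∈ Λ, 2 ≤ l) (hE : ∀ A Dg J0 : ℕ, ∃ J, J0 ≤ J ∧ TriClaim K Λ J dm A Dg n)
    (J1 : ℕ) {r : Type} [Fintype r] (ell : r → ℕ)
    (a b : r → MvPolynomial (Fin n) K) (ha : ∀ i, a i ≠ 0) (hb : ∀ i, b i ≠ 0)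
    (hP : ∀ i, ∀ P : MvPolynomial (Fin n) K, Irreducible P → P ∣ a i * b i →
      TriDeg dm P ∨ LCU (ell i) P (a i) (b i)) :
    ∃ J, J1 ≤ J ∧ ∀ f : MvPolynomial (Fin n) K, f ≠ 0 →
      ∃ φ : MvPolynomial (Fin n) K →ₐ[K] K, φ f ≠ 0 ∧
      ∀ i, φ (a i) ≠ 0 ∧ φ (b i) ≠ 0 ∧ ∀ p : Pl K, Bad Λ J p →
        LocU (ell i) p (φ (a i)) (φ (b i)) ∧
        ((∀ P : MvPolynomial (Fin n) K, Irreducible P → P ∣ a i * b i → TriDeg dm P) →
          p.valuation K (φ (a i)) = 1 ∧ p.valuation K (φ (b i)) = 1) := by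
  classical
  have hab : ∀ i, a i * b i ≠ 0 := fun i => mul_ne_zero (ha i) (hb i)
  -- the factors
  set fac : r → Finset (MvPolynomial (Fin n) K) := fun i =>
    (UniqueFactorizationMonoid.factors (a i * b i)).toFinset with hfac
  have hirr : ∀ i, ∀ P ∈ fac i, Irreducible P := fun i P hPi =>
    UniqueFactorizationMonoid.irreducible_of_factor P (Multiset.mem_toFinset.1 hPi)
  have hdvd : ∀ i, ∀ P ∈ fac i, P ∣ a i * b i := fun i P hPi =>
    UniqueFactorizationMonoid.dvd_of_mem_factors (Multiset.mem_toFinset.1 hPi)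
  have hunit : ∀ i, ∃ U : (MvPolynomial (Fin n) K)ˣ,
      (UniqueFactorizationMonoid.factors (a i * b i)).prod * U = a i * b i := fun i =>
    UniqueFactorizationMonoid.factors_prod (hab i)
  choose U hU using hunit
  let FF : Finset (MvPolynomial (Fin n) K) := (Finset.univ.biUnion fac).filter (TriDeg dm)
  let κ : Type := Σ i : r, {P // P ∈ (fac i).filter fun P => ¬ TriDeg dm P}
  letI : Fintype κ := inferInstanceAs (Fintype (Σ i : r, {P // P ∈ (fac i).filter fun P => ¬ TriDeg dm P}))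
  have hL : ∀ j : κ, ∃ (e f : ℕ) (a1 b1 g h w : MvPolynomial (Fin n) K),
      a j.1 = j.2.1 ^ e * a1 ∧ b j.1 = j.2.1 ^ f * b1 ∧ ¬ j.2.1 ∣ a1 ∧ ¬ j.2.1 ∣ b1 ∧ ¬ j.2.1 ∣ g ∧
      g ^ ell j.1 * ((-1) ^ (e * f) * (a1 ^ f * b1 ^ ((ell j.1 - 1) * e))) - h ^ ell j.1 =
        j.2.1 * w := by
    rintro ⟨i, P, hPi⟩
    rw [Finset.mem_filter] at hPi
    obtain ⟨e, f, a1, b1, g, h, h1, h2, h3, h4, h5, w, hw⟩ :=
      (hP i P (hirr i P hPi.1) (hdvd i P hPi.1)).resolve_left hPi.2
    exact ⟨e, f, a1, b1, g, h, w, h1, h2, h3, h4, h5, hw⟩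
  choose e f a1 b1 g h w h1 h2 h3 h4 h5 h6 using hL
  let T : κ → Finset (MvPolynomial (Fin n) K) := fun j => {j.2.1, a1 j * b1 j * g j}
  -- all polynomials whose coefficients have to be units
  let PP : Finset (MvPolynomial (Fin n) K) := FF ∪
    Finset.univ.biUnion (fun j : κ => {j.2.1, a1 j * b1 j * g j, a1 j, b1 j, g j, h j, w j}) ∪
    Finset.univ.biUnion (fun i : r => {a i, b i, (U i : MvPolynomial (Fin n) K),
      (((U i)⁻¹ : (MvPolynomial (Fin n) K)ˣ) : MvPolynomial (Fin n) K)})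
  let S : Finset K := PP.biUnion fun q => q.support.image fun m => q.coeff m
  have hS : ∀ q ∈ PP, ∀ m, q.coeff m ≠ 0 → q.coeff m ∈ S := by
    intro q hq m hm
    refine Finset.mem_biUnion.2 ⟨q, hq, Finset.mem_image.2 ⟨m, ?_, rfl⟩⟩
    rwa [MvPolynomial.mem_support_iff]
  obtain ⟨J0, hJ0⟩ := start K hΛ S 0
  obtain ⟨J, hJ, hpts⟩ := hE (Fintype.card {P // P ∈ FF} + Fintype.card κ)
    (PP.sup MvPolynomial.totalDegree) (J0 + J1)
  refine ⟨J, by omega, ?_⟩
  intro F hF
  have hint : ∀ p : Pl K, Bad Λ J p → ∀ q ∈ PP, ∀ m, p.valuation K (q.coeff m) ≤ 1 := by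
    intro p hp q hq m
    by_cases hm : q.coeff m = 0
    · rw [hm, map_zero]
      exact zero_le
    · exact ((hJ0 J (by omega) p hp).2 _ (hS q hq m hm) hm).le
  have huc : ∀ p : Pl K, Bad Λ J p → ∀ q ∈ PP, ∀ m, q.coeff m ≠ 0 →
      p.valuation K (q.coeff m) = 1 := fun p hp q hq m hm =>
    (hJ0 J (by omega) p hp).2 _ (hS q hq m hm) hm
  have hdeg : ∀ q ∈ PP, ∀ j, q.degreeOf j ≤ PP.sup MvPolynomial.totalDegree := fun q hq j =>
    (MvPolynomial.degreeOf_le_totalDegree q j).trans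
      (Finset.le_sup (f := MvPolynomial.totalDegree) hq)
  have hFFP : ∀ q ∈ FF, q ∈ PP := fun q hq =>
    Finset.mem_union_left _ (Finset.mem_union_left _ hq)
  have hκP : ∀ j : κ, ∀ q ∈ ({j.2.1, a1 j * b1 j * g j, a1 j, b1 j, g j, h j, w j} :
      Finset (MvPolynomial (Fin n) K)), q ∈ PP := fun j q hq =>
    Finset.mem_union_left _ (Finset.mem_union_right _
      (Finset.mem_biUnion.2 ⟨j, Finset.mem_univ _, hq⟩))
  have hiP : ∀ i : r, ∀ q ∈ ({a i, b i, (U i : MvPolynomial (Fin n) K),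
      (((U i)⁻¹ : (MvPolynomial (Fin n) K)ˣ) : MvPolynomial (Fin n) K)} :
      Finset (MvPolynomial (Fin n) K)), q ∈ PP := fun i q hq =>
    Finset.mem_union_right _ (Finset.mem_biUnion.2 ⟨i, Finset.mem_univ _, hq⟩)
  have hFFirr : ∀ q ∈ FF, Irreducible q := by
    intro q hq
    obtain ⟨hq1, -⟩ := Finset.mem_filter.1 hq
    obtain ⟨i, -, hi⟩ := Finset.mem_biUnion.1 hq1
    exact hirr i q hi
  have hκirr : ∀ j : κ, Irreducible j.2.1 := fun j =>
    hirr j.1 _ (Finset.mem_filter.1 j.2.2).1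
  have hg0 : ∀ j : κ, g j ≠ 0 := fun j h0 => h5 j (h0 ▸ dvd_zero _)
  have hnd : ∀ j : κ, ¬ j.2.1 ∣ a1 j * b1 j * g j := by
    intro j hd
    have hpr : Prime j.2.1 := (hκirr j).prime
    rcases hpr.dvd_or_dvd hd with hd | hd
    · rcases hpr.dvd_or_dvd hd with hd | hd
      · exact h3 j hd
      · exact h4 j hd
    · exact h5 j hd
  have hTP : ∀ j : κ, ∀ q ∈ T j, q ∈ PP := fun j q hq => hκP j q (by
    rcases Finset.mem_insert.1 hq with rfl | hq
    · simp
    · rw [Finset.mem_singleton.1 hq]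
      simp)
  obtain ⟨t, ht1, ht2⟩ := hpts {P // P ∈ FF} κ (fun i : {P // P ∈ FF} => i.1) T
    (F * ∏ i, (a i * b i)) le_rfl
    (fun i => ⟨hFFirr _ i.2, (Finset.mem_filter.1 i.2).2⟩)
    (by
      intro j
      refine ⟨⟨j.2.1, Finset.mem_insert_self _ _, (hκirr j).ne_zero⟩, fun Q hQ => ?_⟩
      by_contra hcon
      have hall : ∀ f ∈ T j, Q ∣ f := fun f hf => by
        by_contra hh
        exact hcon ⟨f, hf, hh⟩
      have hQ1 : Q ∣ j.2.1 := hall _ (Finset.mem_insert_self _ _)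
      have hQ2 : Q ∣ a1 j * b1 j * g j :=
        hall _ (Finset.mem_insert_of_mem (Finset.mem_singleton_self _))
      have hass : Associated Q j.2.1 := hQ.associated_of_dvd (hκirr j) hQ1
      exact hnd j (hass.symm.dvd.trans hQ2))
    (fun i j => hdeg _ (hFFP _ i.2) j)
    (fun k f hf j => hdeg f (hTP k f hf) j)
    (fun p hp i m hm => huc p hp _ (hFFP _ i.2) m hm)
    (fun p hp k f hf m hm => huc p hp f (hTP k f hf) m hm)
    (mul_ne_zero hF (Finset.prod_ne_zero_iff.2 fun i _ => hab i))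
  rw [map_mul, map_prod] at ht1
  have hF1 : MvPolynomial.eval t F ≠ 0 := left_ne_zero_of_mul ht1
  have hab1 : ∀ i, MvPolynomial.eval t (a i) ≠ 0 ∧ MvPolynomial.eval t (b i) ≠ 0 := by
    intro i
    have hi := Finset.prod_ne_zero_iff.1 (right_ne_zero_of_mul ht1) i (Finset.mem_univ i)
    rw [map_mul] at hi
    exact ⟨left_ne_zero_of_mul hi, right_ne_zero_of_mul hi⟩
  refine ⟨MvPolynomial.aeval t, ?_, ?_⟩
  · rw [MvPolynomial.aeval_eq_eval]
    exact hF1
  intro i
  rw [MvPolynomial.aeval_eq_eval]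
  refine ⟨(hab1 i).1, (hab1 i).2, ?_⟩
  intro p hp
  obtain ⟨ht, hFF, hTT⟩ := ht2 p hp
  have hev : ∀ q ∈ PP, p.valuation K (MvPolynomial.eval t q) ≤ 1 := fun q hq =>
    eval_le_one p (hint p hp q hq) ht
  by_cases hex : ∃ P ∈ (fac i).filter (fun P => ¬ TriDeg dm P), p.valuation K (MvPolynomial.eval t P) < 1
  · obtain ⟨P, hPm, hPv⟩ := hex
    set j : κ := ⟨i, P, hPm⟩ with hj
    have hunit3 : p.valuation K (MvPolynomial.eval t (a1 j * b1 j * g j)) = 1 := by
      obtain ⟨q, hq, hq1⟩ := hTT j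
      rcases Finset.mem_insert.1 hq with rfl | hq
      · exact absurd hq1 hPv.ne
      · rwa [Finset.mem_singleton.1 hq] at hq1
    rw [map_mul, map_mul, map_mul, map_mul] at hunit3
    have ha1v := hev (a1 j) (hκP j _ (by simp))
    have hb1v := hev (b1 j) (hκP j _ (by simp))
    have hgv := hev (g j) (hκP j _ (by simp))
    have hwv := hev (w j) (hκP j _ (by simp))
    have key : ∀ x y : WithZero (Multiplicative ℤ), x ≤ 1 → y ≤ 1 → x * y = 1 → x = 1 ∧ y = 1 := by
      intro x y hx hy hxy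
      have h1 : 1 ≤ x := by
        rw [← hxy]
        exact mul_le_of_le_one_right' hy
      have h2 : 1 ≤ y := by
        rw [← hxy]
        exact mul_le_of_le_one_left' hx
      exact ⟨le_antisymm hx h1, le_antisymm hy h2⟩
    obtain ⟨hab2, hg1⟩ := key _ _ (mul_le_one' ha1v hb1v) hgv hunit3
    obtain ⟨ha2, hb2⟩ := key _ _ ha1v hb1v hab2
    refine ⟨?_, fun hcon => absurd (hcon P (hirr i P (Finset.mem_filter.1 hPm).1)
      (hdvd i P (Finset.mem_filter.1 hPm).1)) (Finset.mem_filter.1 hPm).2⟩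
    refine ⟨MvPolynomial.eval t P, MvPolynomial.eval t (a1 j), MvPolynomial.eval t (b1 j),
      MvPolynomial.eval t (g j), MvPolynomial.eval t (h j), e j, f j, ?_, ?_, ha2, hb2, hg1, ?_⟩
    · rw [← map_pow, ← map_mul]
      exact congrArg _ (h1 j)
    · rw [← map_pow, ← map_mul]
      exact congrArg _ (h2 j)
    · have h7 := congrArg (MvPolynomial.eval t) (h6 j)
      simp only [map_sub, map_mul, map_pow, map_neg, map_one] at h7
      rw [h7, map_mul]
      exact lt_of_le_of_lt (mul_le_of_le_one_right' hwv) hPv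
  · have hall : ∀ P ∈ fac i, p.valuation K (MvPolynomial.eval t P) = 1 := by
      intro P hPm
      by_cases hTP : TriDeg dm P
      · exact hFF ⟨P, Finset.mem_filter.2 ⟨Finset.mem_biUnion.2 ⟨i, Finset.mem_univ _, hPm⟩, hTP⟩⟩
      · have hPm' : P ∈ (fac i).filter (fun P => ¬ TriDeg dm P) := Finset.mem_filter.2 ⟨hPm, hTP⟩
        refine le_antisymm (hev P (hκP ⟨i, P, hPm'⟩ P (by simp))) ?_
        by_contra hlt
        exact hex ⟨P, hPm', not_le.1 hlt⟩
    have hprod : p.valuation K (MvPolynomial.eval t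
        (UniqueFactorizationMonoid.factors (a i * b i)).prod) = 1 := by
      have : ∀ s : Multiset (MvPolynomial (Fin n) K),
          (∀ P ∈ s, p.valuation K (MvPolynomial.eval t P) = 1) →
          p.valuation K (MvPolynomial.eval t s.prod) = 1 := by
        intro s
        induction s using Multiset.induction_on with
        | empty => intro _; simp
        | cons P s ih =>
          intro hs
          rw [Multiset.prod_cons, map_mul, map_mul, hs P (Multiset.mem_cons_self P s),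
            ih (fun Q hQ => hs Q (Multiset.mem_cons_of_mem hQ)), one_mul]
      exact this _ (fun P hPm => hall P (Multiset.mem_toFinset.2 hPm))
    have key : ∀ x y : WithZero (Multiplicative ℤ), x ≤ 1 → y ≤ 1 → x * y = 1 → x = 1 ∧ y = 1 := by
      intro x y hx hy hxy
      have h1 : 1 ≤ x := by
        rw [← hxy]
        exact mul_le_of_le_one_right' hy
      have h2 : 1 ≤ y := by
        rw [← hxy]
        exact mul_le_of_le_one_left' hx
      exact ⟨le_antisymm hx h1, le_antisymm hy h2⟩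
    have hUv : p.valuation K (MvPolynomial.eval t (U i : MvPolynomial (Fin n) K)) = 1 := by
      have hm : (U i : MvPolynomial (Fin n) K) *
          (((U i)⁻¹ : (MvPolynomial (Fin n) K)ˣ) : MvPolynomial (Fin n) K) = 1 :=
        Units.mul_inv (U i)
      have hm2 := congrArg (fun q => p.valuation K (MvPolynomial.eval t q)) hm
      simp only [map_mul, map_one] at hm2
      exact (key _ _ (hev _ (hiP i _ (by simp))) (hev _ (hiP i _ (by simp))) hm2).1
    have habv : p.valuation K (MvPolynomial.eval t (a i)) *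
        p.valuation K (MvPolynomial.eval t (b i)) = 1 := by
      rw [← map_mul, ← map_mul, ← hU i, map_mul, map_mul, hprod, hUv, one_mul]
    obtain ⟨hav, hbv⟩ := key _ _ (hev _ (hiP i _ (by simp))) (hev _ (hiP i _ (by simp))) habv
    exact ⟨⟨1, MvPolynomial.eval t (a i), MvPolynomial.eval t (b i), 1, 1, 0, 0, by simp, by simp,
      hav, hbv, map_one _, by simp⟩, fun _ => ⟨hav, hbv⟩⟩

end Pool.Agent.Helper56.CL
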